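import Mathlib

/-!
# Frames of `2n-2` vectors in `ℝ^n` doing weak phase retrieval are not dense

For every `n ≥ 2` the set of frames of `2n-2` vectors of `ℝ^n` which do weak phase retrieval is
not dense in the set of all frames of `2n-2` vectors.
-/

set_option autoImplicit false

namespace Pool.Agent.Results.MP_e57dcf_an.NotDense

open scoped BigOperators

/-- `ℝ^n` with the standard inner product. -/
abbrev E (n : ℕ) : Type := EuclideanSpace ℝ (Fin n)

/-- `(x_1, ..., x_m)` is a frame for `ℝ^n`: there are `0 < A ≤ B` with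
`A ‖x‖² ≤ ∑ |⟨x, x_i⟩|² ≤ B ‖x‖²` for all `x`. -/
def IsFrame {n m : ℕ} (x : Fin m → E n) : Prop :=
  ∃ A B : ℝ, 0 < A ∧ A ≤ B ∧ ∀ v : E n,
    A * ‖v‖ ^ 2 ≤ ∑ i, |inner ℝ v (x i)| ^ 2 ∧ ∑ i, |inner ℝ v (x i)| ^ 2 ≤ B * ‖v‖ ^ 2

/-- `x` and `y` weakly have the same phase: there is `θ ∈ {1, -1}` with `sgn x(k) = θ sgn y(k)`
for every coordinate `k` with `x(k) y(k) ≠ 0`. -/
def WeaklySamePhase {n : ℕ} (x y : E n) : Prop :=
  ∃ θ : ℝ, (θ = 1 ∨ θ = -1) ∧ ∀ k, x k * y k ≠ 0 → Real.sign (x k) = θ * Real.sign (y k)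

/-- The family does weak phase retrieval. -/
def DoesWPR {n m : ℕ} (φ : Fin m → E n) : Prop :=
  ∀ x y : E n, (∀ i, |inner ℝ x (φ i)| = |inner ℝ y (φ i)|) → WeaklySamePhase x y

/-- The set of all frames of `m` vectors for `ℝ^n`, with the Euclidean topology. -/
abbrev Frames (n m : ℕ) : Type := {φ : Fin m → E n // IsFrame φ}

/-- The set of frames of `2n - 2` vectors doing weak phase retrieval. -/
def W (n : ℕ) : Set (Frames n (2 * n - 2)) := {φ | DoesWPR φ.1}

/-- generalized cross product -/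
noncomputable def cross {m : ℕ} (x : Fin m → E (m + 1)) (j : Fin (m + 1)) : ℝ :=
  (-1) ^ (j : ℕ) * Matrix.det (Matrix.of fun (i j' : Fin m) => x i (j.succAbove j'))

theorem cross_orth {m : ℕ} (x : Fin m → E (m + 1)) (i : Fin m) :
    ∑ j, x i j * cross x j = 0 := by
  have h : Matrix.det (Matrix.of (Fin.cons (fun j => x i j) (fun i' j => x i' j) :
      Fin (m + 1) → Fin (m + 1) → ℝ)) = 0 := by
    apply Matrix.det_zero_of_row_eq (i := 0) (j := i.succ) (Fin.succ_ne_zero i).symm
    ext j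
    simp
  rw [Matrix.det_succ_row_zero] at h
  rw [← h]
  apply Finset.sum_congr rfl
  intro j _
  have e : (Matrix.of (Fin.cons (fun j => x i j) (fun i' j => x i' j) :
      Fin (m + 1) → Fin (m + 1) → ℝ)).submatrix Fin.succ j.succAbove =
      Matrix.of fun (i j' : Fin m) => x i (j.succAbove j') := by
    ext a b
    simp
  rw [e]
  simp only [cross, Matrix.of_apply, Fin.cons_zero]
  ring

theorem cross_cont {m : ℕ} (j : Fin (m + 1)) :
    Continuous fun x : Fin m → E (m + 1) => cross x j := by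
  unfold cross
  apply Continuous.mul continuous_const
  apply Continuous.matrix_det
  apply continuous_matrix
  intro a b
  simp only [Matrix.of_apply]
  have h : Continuous fun v : E (m + 1) => v (j.succAbove b) := by fun_prop
  exact h.comp (continuous_apply a)

/-- reindexing -/
def ind (m : ℕ) : Fin m ⊕ Fin m ≃ Fin (2 * (m + 1) - 2) :=
  finSumFinEquiv.trans (finCongr (by omega))

/-- the polynomial which vanishes on `W` -/
noncomputable def P {m : ℕ} (φ : Fin (2 * (m + 1) - 2) → E (m + 1)) (a b : Fin (m + 1)) : ℝ :=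
  (cross (fun i => φ (ind m (Sum.inl i))) a * cross (fun i => φ (ind m (Sum.inr i))) b) ^ 2 -
  (cross (fun i => φ (ind m (Sum.inl i))) b * cross (fun i => φ (ind m (Sum.inr i))) a) ^ 2

theorem inner_eq {n : ℕ} (x y : E n) : inner ℝ x y = ∑ j, y j * x j := by
  rw [PiLp.inner_apply]
  apply Finset.sum_congr rfl
  intro j _
  simp

theorem P_le {m : ℕ} (φ : Fin (2 * (m + 1) - 2) → E (m + 1)) (hφ : DoesWPR φ)
    (a b : Fin (m + 1)) : P φ a b ≤ 0 := by
  by_contra hcon
  push Not at hcon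
  set u := cross (fun i => φ (ind m (Sum.inl i))) with hu
  set v := cross (fun i => φ (ind m (Sum.inr i))) with hv
  have hP : (u b * v a) ^ 2 < (u a * v b) ^ 2 := by
    have : P φ a b = (u a * v b) ^ 2 - (u b * v a) ^ 2 := rfl
    linarith
  have hvb : 0 < v b ^ 2 := by
    have : v b ≠ 0 := by
      intro h
      rw [h] at hP
      nlinarith [sq_nonneg (u b * v a)]
    positivity
  set ε : ℝ := ((u a * v b) ^ 2 - (u b * v a) ^ 2) / (2 * (v a ^ 2 + 1)) with hε
  have hεpos : 0 < ε := by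
    rw [hε]
    apply div_pos (by linarith) (by positivity)
  have hεlt : ε * v a ^ 2 < (u a * v b) ^ 2 - (u b * v a) ^ 2 := by
    have h1 : ε * (2 * (v a ^ 2 + 1)) = (u a * v b) ^ 2 - (u b * v a) ^ 2 := by
      rw [hε]
      field_simp
    nlinarith [sq_nonneg (v a)]
  set t : ℝ := (u b ^ 2 + ε) / v b ^ 2 with ht
  have htpos : 0 < t := by rw [ht]; positivity
  have ht1 : t * v b ^ 2 = u b ^ 2 + ε := by
    rw [ht, div_mul_cancel₀ _ hvb.ne']
  have ht2 : t * v a ^ 2 < u a ^ 2 := by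
    have : t * v a ^ 2 * v b ^ 2 < u a ^ 2 * v b ^ 2 := by
      have h3 : t * v a ^ 2 * v b ^ 2 = (u b ^ 2 + ε) * v a ^ 2 := by
        rw [← ht1]; ring
      rw [h3]
      nlinarith
    exact lt_of_mul_lt_mul_right this hvb.le
  set c : ℝ := √t with hc
  have hc2 : c ^ 2 = t := Real.sq_sqrt htpos.le
  let x : E (m + 1) := WithLp.toLp 2 (fun j => u j + c * v j)
  let y : E (m + 1) := WithLp.toLp 2 (fun j => u j - c * v j)
  have hxy : ∀ i, |inner ℝ x (φ i)| = |inner ℝ y (φ i)| := by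
    intro i
    obtain ⟨s, rfl⟩ := (ind m).surjective i
    rw [inner_eq, inner_eq]
    rcases s with i | i
    · have h := cross_orth (fun i => φ (ind m (Sum.inl i))) i
      rw [← hu] at h
      have h1 : ∑ j, (φ (ind m (Sum.inl i))) j * x j =
          c * ∑ j, (φ (ind m (Sum.inl i))) j * v j := by
        have : ∑ j, (φ (ind m (Sum.inl i))) j * x j = ∑ j, ((φ (ind m (Sum.inl i))) j * u j +
            c * ((φ (ind m (Sum.inl i))) j * v j)) := by
          apply Finset.sum_congr rfl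
          intro j _
          simp only [x]
          ring
        rw [this, Finset.sum_add_distrib, h, Finset.mul_sum, zero_add]
      have h2 : ∑ j, (φ (ind m (Sum.inl i))) j * y j =
          -(c * ∑ j, (φ (ind m (Sum.inl i))) j * v j) := by
        have : ∑ j, (φ (ind m (Sum.inl i))) j * y j = ∑ j, ((φ (ind m (Sum.inl i))) j * u j -
            c * ((φ (ind m (Sum.inl i))) j * v j)) := by
          apply Finset.sum_congr rfl
          intro j _
          simp only [y]
          ring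
        rw [this, Finset.sum_sub_distrib, h, Finset.mul_sum, zero_sub]
      rw [h1, h2, abs_neg]
    · have h := cross_orth (fun i => φ (ind m (Sum.inr i))) i
      rw [← hv] at h
      have h1 : ∑ j, (φ (ind m (Sum.inr i))) j * x j =
          ∑ j, (φ (ind m (Sum.inr i))) j * u j := by
        have : ∑ j, (φ (ind m (Sum.inr i))) j * x j = ∑ j, ((φ (ind m (Sum.inr i))) j * u j +
            c * ((φ (ind m (Sum.inr i))) j * v j)) := by
          apply Finset.sum_congr rfl
          intro j _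
          simp only [x]
          ring
        rw [this, Finset.sum_add_distrib, ← Finset.mul_sum, h, mul_zero, add_zero]
      have h2 : ∑ j, (φ (ind m (Sum.inr i))) j * y j =
          ∑ j, (φ (ind m (Sum.inr i))) j * u j := by
        have : ∑ j, (φ (ind m (Sum.inr i))) j * y j = ∑ j, ((φ (ind m (Sum.inr i))) j * u j -
            c * ((φ (ind m (Sum.inr i))) j * v j)) := by
          apply Finset.sum_congr rfl
          intro j _
          simp only [y]
          ring
        rw [this, Finset.sum_sub_distrib, ← Finset.mul_sum, h, mul_zero, sub_zero]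
      rw [h1, h2]
  obtain ⟨θ, hθ, hsgn⟩ := hφ x y hxy
  have ha : 0 < x a * y a := by
    have : x a * y a = u a ^ 2 - c ^ 2 * v a ^ 2 := by simp only [x, y]; ring
    rw [this, hc2]
    linarith
  have hb : x b * y b < 0 := by
    have : x b * y b = u b ^ 2 - c ^ 2 * v b ^ 2 := by simp only [x, y]; ring
    rw [this, hc2, ht1]
    linarith
  have sa := hsgn a ha.ne'
  have sb := hsgn b hb.ne
  have hθ1 : θ = 1 := by
    rcases mul_pos_iff.1 ha with ⟨h1, h2⟩ | ⟨h1, h2⟩
    · rw [Real.sign_of_pos h1, Real.sign_of_pos h2] at sa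
      linarith
    · rw [Real.sign_of_neg h1, Real.sign_of_neg h2] at sa
      linarith
  rcases mul_neg_iff.1 hb with ⟨h1, h2⟩ | ⟨h1, h2⟩
  · rw [Real.sign_of_pos h1, Real.sign_of_neg h2] at sb
    linarith
  · rw [Real.sign_of_neg h1, Real.sign_of_pos h2] at sb
    linarith

/-- the special frame -/
noncomputable def φ0 (m : ℕ) (b : Fin (m + 1)) : Fin (2 * (m + 1) - 2) → E (m + 1) :=
  fun i => Sum.elim (fun i : Fin m => EuclideanSpace.single i.succ (1 : ℝ))
    (fun i : Fin m => EuclideanSpace.single (b.succAbove i) (1 : ℝ)) ((ind m).symm i)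

theorem φ0_inl (m : ℕ) (b : Fin (m + 1)) (i : Fin m) :
    φ0 m b (ind m (Sum.inl i)) = EuclideanSpace.single i.succ (1 : ℝ) := by
  simp [φ0]

theorem φ0_inr (m : ℕ) (b : Fin (m + 1)) (i : Fin m) :
    φ0 m b (ind m (Sum.inr i)) = EuclideanSpace.single (b.succAbove i) (1 : ℝ) := by
  simp [φ0]

theorem cross_special {m : ℕ} (b : Fin (m + 1)) :
    cross (fun i : Fin m => (EuclideanSpace.single (b.succAbove i) (1 : ℝ) : E (m + 1))) b ^ 2
      = 1 := by
  have : (Matrix.of fun (i j' : Fin m) => (EuclideanSpace.single (b.succAbove i) (1 : ℝ) :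
      E (m + 1)) (b.succAbove j')) = 1 := by
    ext i j
    simp [Matrix.one_apply, eq_comm]
  unfold cross
  rw [this, Matrix.det_one, mul_one, ← pow_mul, mul_comm, pow_mul]
  simp

theorem cross_special_ne {m : ℕ} (b : Fin (m + 1)) (i : Fin m) :
    cross (fun i : Fin m => (EuclideanSpace.single (b.succAbove i) (1 : ℝ) : E (m + 1)))
      (b.succAbove i) = 0 := by
  have h := cross_orth (fun i : Fin m => (EuclideanSpace.single (b.succAbove i) (1 : ℝ) :
    E (m + 1))) i
  rw [Finset.sum_eq_single (b.succAbove i)] at h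
  · simpa using h
  · intro j _ hj
    simp [hj]
  · simp

theorem φ0_frame (m : ℕ) (b : Fin (m + 1)) (hb : b ≠ 0) : IsFrame (φ0 m b) := by
  refine ⟨1, 1 + ∑ i, ‖φ0 m b i‖ ^ 2, one_pos, ?_, fun v => ⟨?_, ?_⟩⟩
  · have : 0 ≤ ∑ i, ‖φ0 m b i‖ ^ 2 := Finset.sum_nonneg (fun i _ => by positivity)
    linarith
  · obtain ⟨i0, hi0⟩ := Fin.exists_succAbove_eq (x := 0) (y := b) hb.symm
    rw [one_mul, EuclideanSpace.norm_sq_eq, Fin.sum_univ_succ,
      ← (ind m).sum_comp, Fintype.sum_sum_type]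
    have h1 : ∀ i : Fin m, |inner ℝ v (φ0 m b (ind m (Sum.inl i)))| ^ 2 = ‖v i.succ‖ ^ 2 := by
      intro i
      rw [φ0_inl]
      simp [EuclideanSpace.inner_single_right]
    have h2 : ‖v 0‖ ^ 2 ≤ ∑ i : Fin m, |inner ℝ v (φ0 m b (ind m (Sum.inr i)))| ^ 2 := by
      have h3 : ‖v 0‖ ^ 2 = |inner ℝ v (φ0 m b (ind m (Sum.inr i0)))| ^ 2 := by
        rw [φ0_inr, hi0]
        simp [EuclideanSpace.inner_single_right]
      rw [h3]
      exact Finset.single_le_sum (f := fun i : Fin m =>
        |inner ℝ v (φ0 m b (ind m (Sum.inr i)))| ^ 2) (fun i _ => by positivity)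
        (Finset.mem_univ i0)
    simp only [h1]
    linarith
  · have h1 : ∀ i, |inner ℝ v (φ0 m b i)| ^ 2 ≤ ‖φ0 m b i‖ ^ 2 * ‖v‖ ^ 2 := by
      intro i
      have := abs_real_inner_le_norm v (φ0 m b i)
      calc |inner ℝ v (φ0 m b i)| ^ 2 ≤ (‖v‖ * ‖φ0 m b i‖) ^ 2 :=
            pow_le_pow_left₀ (abs_nonneg _) this 2
        _ = ‖φ0 m b i‖ ^ 2 * ‖v‖ ^ 2 := by ring
    calc ∑ i, |inner ℝ v (φ0 m b i)| ^ 2 ≤ ∑ i, ‖φ0 m b i‖ ^ 2 * ‖v‖ ^ 2 :=
          Finset.sum_le_sum (fun i _ => h1 i)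
      _ = (∑ i, ‖φ0 m b i‖ ^ 2) * ‖v‖ ^ 2 := by rw [Finset.sum_mul]
      _ ≤ (1 + ∑ i, ‖φ0 m b i‖ ^ 2) * ‖v‖ ^ 2 := by nlinarith [sq_nonneg ‖v‖]

/-- For every `n ≥ 2` the frames of `2n-2` vectors doing weak phase retrieval are not dense in the
set of all frames of `2n-2` vectors for `ℝ^n`. -/
theorem result : ∀ n : ℕ, 2 ≤ n → ¬ Dense (W n) := by
  intro n hn hdense
  obtain ⟨m, rfl⟩ : ∃ m, n = m + 1 := ⟨n - 1, by omega⟩
  have hm : 1 ≤ m := by omega
  let i0 : Fin m := ⟨0, hm⟩
  let b : Fin (m + 1) := i0.succ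
  have hb : b ≠ 0 := Fin.succ_ne_zero i0
  let φ : Frames (m + 1) (2 * (m + 1) - 2) := ⟨φ0 m b, φ0_frame m b hb⟩
  have hcont : Continuous fun ψ : Frames (m + 1) (2 * (m + 1) - 2) => P ψ.1 0 b := by
    unfold P
    have c1 : ∀ j, Continuous fun ψ : Frames (m + 1) (2 * (m + 1) - 2) =>
        cross (fun i => ψ.1 (ind m (Sum.inl i))) j := by
      intro j
      exact (cross_cont j).comp (continuous_pi fun i => (continuous_apply _).comp
        continuous_subtype_val)
    have c2 : ∀ j, Continuous fun ψ : Frames (m + 1) (2 * (m + 1) - 2) =>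
        cross (fun i => ψ.1 (ind m (Sum.inr i))) j := by
      intro j
      exact (cross_cont j).comp (continuous_pi fun i => (continuous_apply _).comp
        continuous_subtype_val)
    exact ((((c1 0).mul (c2 b)).pow 2).sub (((c1 b).mul (c2 0)).pow 2))
  have hle : ∀ ψ ∈ W (m + 1), P ψ.1 0 b ≤ 0 := fun ψ hψ => P_le ψ.1 hψ 0 b
  have hclosed : IsClosed {ψ : Frames (m + 1) (2 * (m + 1) - 2) | P ψ.1 0 b ≤ 0} :=
    isClosed_le hcont continuous_const
  have hall : ∀ ψ : Frames (m + 1) (2 * (m + 1) - 2), P ψ.1 0 b ≤ 0 := by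
    intro ψ
    have := hclosed.closure_subset_iff.2 (show W (m + 1) ⊆ {ψ | P ψ.1 0 b ≤ 0} from hle)
    exact this (hdense ψ)
  have hP : P φ.1 0 b = 1 := by
    have e1 : (fun i => φ0 m b (ind m (Sum.inl i))) =
        fun i : Fin m => (EuclideanSpace.single ((0 : Fin (m + 1)).succAbove i) (1 : ℝ) :
          E (m + 1)) := by
      funext i
      rw [φ0_inl]
      simp
    have e2 : (fun i => φ0 m b (ind m (Sum.inr i))) =
        fun i : Fin m => (EuclideanSpace.single (b.succAbove i) (1 : ℝ) : E (m + 1)) := by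
      funext i
      rw [φ0_inr]
    have e3 : b = (0 : Fin (m + 1)).succAbove i0 := by simp [b]
    show (cross (fun i => φ0 m b (ind m (Sum.inl i))) 0 *
      cross (fun i => φ0 m b (ind m (Sum.inr i))) b) ^ 2 -
      (cross (fun i => φ0 m b (ind m (Sum.inl i))) b *
      cross (fun i => φ0 m b (ind m (Sum.inr i))) 0) ^ 2 = 1
    rw [e1, e2]
    have e4 : cross (fun i : Fin m => (EuclideanSpace.single ((0 : Fin (m + 1)).succAbove i)
        (1 : ℝ) : E (m + 1))) b = 0 := by
      rw [e3]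
      exact cross_special_ne 0 i0
    rw [e4, mul_pow, cross_special, cross_special]
    ring
  have := hall φ
  rw [hP] at this
  linarith

end Pool.Agent.Results.MP_e57dcf_an.NotDense
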